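import Pool.Agent.H922Z.NU.Defs

set_option autoImplicit false

open MeasureTheory Complex Metric Set Filter Topology

namespace Pool.Agent.H321Z.NU

open Pool.Agent.H922Z.NU

/-- a holomorphic branch of `-log a` -/
theorem exists_log (a : ℂ → ℂ) (c : ℂ) (R : ℝ) (hR : 0 < R) (hd : DifferentiableOn ℂ a (ball c R))
    (h0 : ∀ w ∈ ball c R, a w ≠ 0) :
    ∃ F : ℂ → ℂ, ∀ w ∈ ball c R, HasDerivAt F (-(deriv a w / a w)) w ∧
      (F w).re = -Real.log ‖a w‖ := by
  have hq : DifferentiableOn ℂ (fun w => deriv a w / a w) (ball c R) :=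
    (hd.deriv isOpen_ball).div hd h0
  obtain ⟨G, hG⟩ := hq.isExactOn_ball
  have hda : ∀ w ∈ ball c R, HasDerivAt a (deriv a w) w := fun w hw =>
    (hd.differentiableAt (isOpen_ball.mem_nhds hw)).hasDerivAt
  have hP : ∀ w ∈ ball c R, HasDerivAt (fun w => a w * Complex.exp (-G w)) 0 w := by
    intro w hw
    have := (hda w hw).mul (hG w hw).neg.cexp
    refine this.congr_deriv ?_
    have := h0 w hw
    field_simp
    ring
  have hconst : ∀ w ∈ ball c R, a w * Complex.exp (-G w) = a c * Complex.exp (-G c) := by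
    intro w hw
    refine isOpen_ball.is_const_of_deriv_eq_zero (𝕜 := ℂ) (convex_ball c R).isPreconnected
      (fun x hx => (hP x hx).differentiableAt.differentiableWithinAt)
      (fun x hx => (hP x hx).deriv) hw (mem_ball_self hR)
  refine ⟨fun w => -G w - (Real.log ‖a c * Complex.exp (-G c)‖ : ℝ), fun w hw => ⟨?_, ?_⟩⟩
  · exact (hG w hw).neg.sub_const _
  · rw [← hconst w hw, norm_mul, Real.log_mul (norm_ne_zero_iff.2 (h0 w hw))
      (norm_ne_zero_iff.2 (Complex.exp_ne_zero _)), Complex.norm_exp, Real.log_exp]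
    simp

theorem norm_cayley_le {p q : ℂ} (hp : 0 < p.re) (hq : 0 < q.re) :
    ‖(p - q) / (p + (starRingEnd ℂ) q)‖ ≤ 1 := by
  rw [norm_div]
  refine div_le_one_of_le₀ ?_ (norm_nonneg _)
  refine (sq_le_sq₀ (norm_nonneg _) (norm_nonneg _)).1 ?_
  rw [Complex.sq_norm, Complex.sq_norm, Complex.normSq_apply, Complex.normSq_apply]
  simp
  nlinarith [mul_pos hp hq]

theorem cayley_den_ne {p q : ℂ} (hp : 0 < p.re) (hq : 0 < q.re) :
    p + (starRingEnd ℂ) q ≠ 0 := by
  intro h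
  have := congrArg Complex.re h
  simp at this
  linarith

/-- Schwarz lemma at the centre for maps into the right half plane -/
theorem half_plane {F : ℂ → ℂ} {c : ℂ} {R : ℝ} (hd : DifferentiableOn ℂ F (ball c R))
    (hpos : ∀ w ∈ ball c R, 0 < (F w).re) (hR : 0 < R) :
    DifferentiableOn ℂ (fun w => (F w - F c) / (F w + (starRingEnd ℂ) (F c))) (ball c R) ∧
    MapsTo (fun w => (F w - F c) / (F w + (starRingEnd ℂ) (F c))) (ball c R)
      (closedBall ((fun w => (F w - F c) / (F w + (starRingEnd ℂ) (F c))) c) 1) := by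
  have hc := hpos c (mem_ball_self hR)
  refine ⟨(hd.sub_const _).div (hd.add_const _) fun w hw => cayley_den_ne (hpos w hw) hc, ?_⟩
  intro w hw
  simp only [sub_self, zero_div, mem_closedBall, dist_zero_right]
  exact norm_cayley_le (hpos w hw) hc

theorem t4b : T4b := by
  intro a c R hR hd h0 h1
  obtain ⟨F, hF⟩ := exists_log a c R hR hd h0
  have hc := mem_ball_self (x := c) hR
  have hu : ∀ w ∈ ball c R, 0 ≤ -Real.log ‖a w‖ := fun w hw =>
    neg_nonneg.2 (Real.log_nonpos (norm_nonneg _) (h1 w hw))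
  have key : ∀ ε : ℝ, 0 < ε → ‖deriv a c / a c‖ ≤ 2 * (-Real.log ‖a c‖ + ε) / R := by
    intro ε hε
    have hG : ∀ w ∈ ball c R, HasDerivAt (fun w => F w + (ε : ℂ)) (-(deriv a w / a w)) w :=
      fun w hw => (hF w hw).1.add_const _
    have hre : ∀ w ∈ ball c R, (F w + (ε : ℂ)).re = -Real.log ‖a w‖ + ε := fun w hw => by
      simp [(hF w hw).2]
    have hpos : ∀ w ∈ ball c R, 0 < (F w + (ε : ℂ)).re := fun w hw => by
      rw [hre w hw]; linarith [hu w hw]
    obtain ⟨h2, h3⟩ := half_plane (F := fun w => F w + (ε : ℂ))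
      (fun w hw => (hG w hw).differentiableAt.differentiableWithinAt) hpos hR
    have h4 := Complex.norm_deriv_le_div_of_mapsTo_ball h2 h3 hR
    have hne := cayley_den_ne (hpos c hc) (hpos c hc)
    have h5 := (((hG c hc).sub_const (F c + ε)).div
      ((hG c hc).add_const ((starRingEnd ℂ) (F c + ε))) hne).deriv
    have h6 : (F c + (ε : ℂ)) + (starRingEnd ℂ) (F c + ε) =
        ((2 * (-Real.log ‖a c‖ + ε) : ℝ) : ℂ) := by
      rw [Complex.add_conj, hre c hc]
    have hp : 0 < 2 * (-Real.log ‖a c‖ + ε) := by linarith [hu c hc]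
    have h7 : deriv (fun w => (F w + (ε : ℂ) - (F c + ε)) /
        (F w + (ε : ℂ) + (starRingEnd ℂ) (F c + ε))) c =
        -(deriv a c / a c) / ((2 * (-Real.log ‖a c‖ + ε) : ℝ) : ℂ) := by
      refine h5.trans ?_
      rw [← h6]
      field_simp
      ring
    rw [h7, norm_div, norm_neg, Complex.norm_real, Real.norm_of_nonneg hp.le,
      div_le_div_iff₀ hp hR] at h4
    rw [le_div_iff₀ hR]
    linarith
  refine le_of_forall_pos_le_add fun ε hε => ?_
  have := key (ε * R / 2) (by positivity)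
  refine this.trans (le_of_eq ?_)
  field_simp

theorem moebius_sq (R : ℝ) (p z : ℂ) :
    Complex.normSq ((R : ℂ) ^ 2 - (starRingEnd ℂ) p * z) - R ^ 2 * Complex.normSq (z - p) =
      (R ^ 2 - Complex.normSq z) * (R ^ 2 - Complex.normSq p) := by
  simp [Complex.normSq_apply, pow_two]
  ring

theorem re_le_of_cayley {p q : ℂ} {s t : ℝ} (hp : 0 < p.re) (hq : 0 < q.re) (hs : 0 ≤ s)
    (hst : s < t) (h : t * ‖(p - q) / (p + (starRingEnd ℂ) q)‖ ≤ s) :
    p.re * (t ^ 2 - s ^ 2) ≤ (t + s) ^ 2 * q.re := by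
  have hne := cayley_den_ne hp hq
  have ht : 0 < t := lt_of_le_of_lt hs hst
  rw [norm_div, ← mul_div_assoc, div_le_iff₀ (norm_pos_iff.2 hne)] at h
  have h2 : (t * ‖p - q‖) ^ 2 ≤ (s * ‖p + (starRingEnd ℂ) q‖) ^ 2 :=
    pow_le_pow_left₀ (by positivity) h 2
  rw [mul_pow, mul_pow, Complex.sq_norm, Complex.sq_norm, Complex.normSq_apply,
    Complex.normSq_apply] at h2
  simp only [sub_re, sub_im, add_re, add_im, conj_re, conj_im] at h2
  have h3 : t ^ 2 * (p.re - q.re) ^ 2 ≤ s ^ 2 * (p.re + q.re) ^ 2 := by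
    have : s ^ 2 ≤ t ^ 2 := pow_le_pow_left₀ hs hst.le 2
    nlinarith [mul_self_nonneg (p.im - q.im), mul_le_mul_of_nonneg_right this
      (mul_self_nonneg (p.im - q.im))]
  have h4 : t * (p.re - q.re) ≤ s * (p.re + q.re) := by
    refine le_trans (le_abs_self _) ?_
    refine abs_le_of_sq_le_sq' ?_ (by positivity) |> fun h => abs_le.2 h
    rw [mul_pow, mul_pow]; exact h3
  have h5 : p.re * (t - s) ≤ (t + s) * q.re := by linarith
  have h6 : 0 ≤ t + s := by linarith
  nlinarith [mul_le_mul_of_nonneg_right h5 h6]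

theorem t4a : T4a := by
  intro a c R hd h0 h1 w₁ hw₁ w₂ hw₂
  have hR : 0 < R := pos_of_mem_ball hw₁
  obtain ⟨F, hF⟩ := exists_log a c R hR hd h0
  have hu : ∀ w ∈ ball c R, 0 ≤ -Real.log ‖a w‖ := fun w hw =>
    neg_nonneg.2 (Real.log_nonpos (norm_nonneg _) (h1 w hw))
  set p : ℂ := w₂ - c with hp
  set z₁ : ℂ := w₁ - c with hz₁
  have hpR : ‖p‖ < R := by rwa [mem_ball, dist_eq_norm] at hw₂
  have hzR : ‖z₁‖ < R := by rwa [mem_ball, dist_eq_norm] at hw₁
  have hpq : Complex.normSq p < R ^ 2 := by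
    rw [← Complex.sq_norm]; exact pow_lt_pow_left₀ hpR (norm_nonneg _) two_ne_zero
  have hRc : (R : ℂ) ≠ 0 := by exact_mod_cast hR.ne'
  have hden : ∀ (p z : ℂ), ‖p‖ < R → ‖z‖ < R → (R : ℂ) ^ 2 - (starRingEnd ℂ) p * z ≠ 0 := by
    intro p z h1 h2 h
    have h3 : ‖(R : ℂ) ^ 2‖ = ‖(starRingEnd ℂ) p * z‖ := by rw [sub_eq_zero.1 h]
    rw [norm_pow, Complex.norm_real, Real.norm_of_nonneg hR.le, norm_mul, Complex.norm_conj] at h3
    nlinarith [norm_nonneg p, norm_nonneg z, mul_lt_mul'' h1 h2 (norm_nonneg _) (norm_nonneg _)]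
  have hlt : ∀ (p z : ℂ), ‖p‖ < R → ‖z‖ < R →
      R * ‖z - p‖ < ‖(R : ℂ) ^ 2 - (starRingEnd ℂ) p * z‖ := by
    intro p z h1 h2
    refine lt_of_pow_lt_pow_left₀ 2 (norm_nonneg _) ?_
    have := moebius_sq R p z
    rw [mul_pow, Complex.sq_norm, Complex.sq_norm]
    have e1 : Complex.normSq p < R ^ 2 := by
      rw [← Complex.sq_norm]; exact pow_lt_pow_left₀ h1 (norm_nonneg _) two_ne_zero
    have e2 : Complex.normSq z < R ^ 2 := by
      rw [← Complex.sq_norm]; exact pow_lt_pow_left₀ h2 (norm_nonneg _) two_ne_zero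
    nlinarith [mul_pos (sub_pos.2 e1) (sub_pos.2 e2)]
  -- the Moebius map of the disc of radius `R`
  let m : ℂ → ℂ → ℂ := fun p z => (R : ℂ) ^ 2 * (z - p) / ((R : ℂ) ^ 2 - (starRingEnd ℂ) p * z)
  have hm : ∀ (p z : ℂ), ‖p‖ < R → ‖z‖ < R → ‖m p z‖ < R := by
    intro p z h1 h2
    have := hlt p z h1 h2
    simp only [m]
    rw [norm_div, div_lt_iff₀ (norm_pos_iff.2 (hden p z h1 h2)), norm_mul, norm_pow,
      Complex.norm_real, Real.norm_of_nonneg hR.le]
    nlinarith
  have hnp : ‖-p‖ < R := by rwa [norm_neg]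
  have hinv : m (-p) (m p z₁) = z₁ := by
    have e1 := hden p z₁ hpR hzR
    have e2 := hden (-p) (m p z₁) hnp (hm p z₁ hpR hzR)
    simp only [m] at e2 ⊢
    rw [div_eq_iff e2]
    simp only [map_neg]
    generalize (starRingEnd ℂ) p = q at e1 ⊢
    have e3 : (R : ℂ) ^ 2 - z₁ * q ≠ 0 := by rwa [mul_comm z₁]
    field_simp
    ring
  have hm0 : m (-p) 0 = p := by
    simp only [m]
    field_simp
    ring
  set t : ℝ := ‖(R : ℂ) ^ 2 - (starRingEnd ℂ) p * z₁‖ with ht
  set s : ℝ := R * ‖z₁ - p‖ with hs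
  have hst : s < t := hlt p z₁ hpR hzR
  have hs0 : 0 ≤ s := by positivity
  have hts : t ^ 2 - s ^ 2 = (R ^ 2 - ‖z₁‖ ^ 2) * (R ^ 2 - ‖p‖ ^ 2) := by
    rw [ht, hs, mul_pow, Complex.sq_norm, Complex.sq_norm, Complex.sq_norm, Complex.sq_norm]
    exact moebius_sq R p z₁
  have key : ∀ ε : ℝ, 0 < ε →
      (-Real.log ‖a w₁‖ + ε) * (t ^ 2 - s ^ 2) ≤ (t + s) ^ 2 * (-Real.log ‖a w₂‖ + ε) := by
    intro ε hε
    have hmem : ∀ z ∈ ball (0 : ℂ) R, c + m (-p) z ∈ ball c R := by
      intro z hz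
      rw [mem_ball, dist_eq_norm, add_sub_cancel_left]
      exact hm _ _ hnp (by simpa using hz)
    have hre : ∀ w ∈ ball c R, (F w + (ε : ℂ)).re = -Real.log ‖a w‖ + ε := fun w hw => by
      simp [(hF w hw).2]
    have hpos : ∀ w ∈ ball c R, 0 < (F w + (ε : ℂ)).re := fun w hw => by
      rw [hre w hw]; linarith [hu w hw]
    have hdm : DifferentiableOn ℂ (fun z => c + m (-p) z) (ball 0 R) := by
      refine DifferentiableOn.const_add _ ?_
      refine DifferentiableOn.div (by fun_prop) (by fun_prop) fun z hz => ?_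
      exact hden _ _ hnp (by simpa using hz)
    have hdF : DifferentiableOn ℂ (fun w => F w + (ε : ℂ)) (ball c R) := fun w hw =>
      ((hF w hw).1.add_const _).differentiableAt.differentiableWithinAt
    obtain ⟨h2, h3⟩ := half_plane (F := fun z => F (c + m (-p) z) + (ε : ℂ)) (c := 0) (R := R)
      (hdF.comp hdm hmem) (fun z hz => hpos _ (hmem z hz)) hR
    have h4 := Complex.dist_le_div_mul_dist_of_mapsTo_ball h2 h3
      (z := m p z₁) (by simpa using hm p z₁ hpR hzR)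
    have e1 : c + z₁ = w₁ := by rw [hz₁]; ring
    have e2 : c + p = w₂ := by rw [hp]; ring
    simp only [hinv, hm0, e1, e2, sub_self, zero_div, dist_zero_right] at h4
    have h5 : ‖m p z₁‖ = R * s / t := by
      simp only [m]
      rw [norm_div, norm_mul, norm_pow, Complex.norm_real, Real.norm_of_nonneg hR.le, hs]
      ring
    have ht0 : 0 < t := lt_of_le_of_lt hs0 hst
    have h6 := re_le_of_cayley (hpos w₁ hw₁) (hpos w₂ hw₂) hs0 hst (by
      refine (mul_le_mul_of_nonneg_left h4 ht0.le).trans (le_of_eq ?_)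
      rw [h5]
      field_simp)
    rwa [hre w₁ hw₁, hre w₂ hw₂] at h6
  have key0 : (-Real.log ‖a w₁‖) * (t ^ 2 - s ^ 2) ≤ (t + s) ^ 2 * (-Real.log ‖a w₂‖) := by
    refine le_of_forall_pos_le_add fun ε hε => ?_
    have hts0 : 0 < t + s := by linarith
    have h7 := key (ε / (t + s) ^ 2) (by positivity)
    have h8 : (t + s) ^ 2 * (ε / (t + s) ^ 2) = ε := by field_simp
    have h9 : 0 ≤ ε / (t + s) ^ 2 * (t ^ 2 - s ^ 2) :=
      mul_nonneg (by positivity) (by nlinarith)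
    nlinarith
  have hzp : z₁ - p = w₁ - w₂ := by rw [hz₁, hp]; ring
  have htle : t ≤ (R ^ 2 - ‖z₁‖ ^ 2) + R * ‖w₁ - w₂‖ := by
    have e : (R : ℂ) ^ 2 - (starRingEnd ℂ) p * z₁ =
        ((R ^ 2 - ‖z₁‖ ^ 2 : ℝ) : ℂ) + (starRingEnd ℂ) (z₁ - p) * z₁ := by
      have := Complex.conj_mul' z₁
      push_cast
      rw [map_sub (starRingEnd ℂ) z₁ p, sub_mul, this]
      ring
    have hA : 0 ≤ R ^ 2 - ‖z₁‖ ^ 2 := by nlinarith [norm_nonneg z₁]
    rw [ht, e]
    refine (norm_add_le _ _).trans ?_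
    rw [Complex.norm_real, Real.norm_of_nonneg hA, norm_mul, Complex.norm_conj, hzp]
    nlinarith [norm_nonneg (w₁ - w₂), mul_le_mul_of_nonneg_left hzR.le (norm_nonneg (w₁ - w₂))]
  have hsum : (t + s) ^ 2 ≤ ((R ^ 2 - ‖z₁‖ ^ 2) + 2 * R * ‖w₁ - w₂‖) ^ 2 := by
    refine pow_le_pow_left₀ (by linarith) ?_ 2
    rw [hs, hzp]; linarith
  rw [mul_assoc, ← hts]
  exact key0.trans (mul_le_mul_of_nonneg_right hsum (hu w₂ hw₂))

theorem t6 : T6 := by
  intro n α _ μ _ U k M hU hmeas hk x₀ hx₀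
  obtain ⟨r, hr, hrU⟩ := Metric.isOpen_iff.1 hU x₀ hx₀
  have hint : Integrable (k x₀) μ :=
    Integrable.of_bound (hmeas x₀ hx₀) M (hk.mono fun a ha => ha.2 x₀ hx₀)
  have hdiff : ∀ᵐ a ∂μ, HasFDerivAt (fun z => k z a) (fderiv ℂ (fun z => k z a) x₀) x₀ :=
    hk.mono fun a ha => (ha.1.differentiableAt (hU.mem_nhds hx₀)).hasFDerivAt
  have hj : ∀ j : Fin n, AEStronglyMeasurable
      (fun a => fderiv ℂ (fun z => k z a) x₀ (Pi.single j 1)) μ := by
    intro j
    let τ : ℕ → ℂ := fun m => ((r / 2 / ((m : ℝ) + 1) : ℝ) : ℂ)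
    have hτpos : ∀ m : ℕ, 0 < r / 2 / ((m : ℝ) + 1) := fun m => by positivity
    have hτlt : ∀ m : ℕ, r / 2 / ((m : ℝ) + 1) < r := fun m => by
      have : r / 2 / ((m : ℝ) + 1) ≤ r / 2 := div_le_self (by positivity) (by simp)
      linarith
    have hτ : Tendsto τ atTop (𝓝[≠] 0) := by
      refine tendsto_nhdsWithin_iff.2 ⟨?_, Eventually.of_forall fun m => ?_⟩
      · have h1 : Tendsto (fun m : ℕ => r / 2 / ((m : ℝ) + 1)) atTop (𝓝 0) :=
          tendsto_const_nhds.div_atTop (tendsto_natCast_atTop_atTop.atTop_add tendsto_const_nhds)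
        have := (Complex.continuous_ofReal.tendsto 0).comp h1
        rw [Complex.ofReal_zero] at this
        exact this
      · simp only [mem_compl_iff, mem_singleton_iff, τ]
        exact_mod_cast (hτpos m).ne'
    have hmem : ∀ m, x₀ + τ m • (Pi.single j 1 : Fin n → ℂ) ∈ U := by
      intro m
      apply hrU
      rw [mem_ball, dist_eq_norm, add_sub_cancel_left, norm_smul, Pi.norm_single, norm_one,
        mul_one, Complex.norm_real, Real.norm_of_nonneg (hτpos m).le]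
      exact hτlt m
    refine aestronglyMeasurable_of_tendsto_ae atTop
      (f := fun m a => (τ m)⁻¹ • (k (x₀ + τ m • (Pi.single j 1 : Fin n → ℂ)) a - k x₀ a))
      (fun m => ((hmeas _ (hmem m)).sub (hmeas _ hx₀)).const_smul (τ m)⁻¹) ?_
    refine hdiff.mono fun a ha => ?_
    have h1 := (ha.hasLineDerivAt (Pi.single j 1)).tendsto_slope_zero
    exact h1.comp hτ
  have hF'meas : AEStronglyMeasurable (fun a => fderiv ℂ (fun z => k z a) x₀) μ := by
    have : (fun a => fderiv ℂ (fun z => k z a) x₀) = fun a => ∑ j : Fin n,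
        (fderiv ℂ (fun z => k z a) x₀ (Pi.single j 1)) •
          (ContinuousLinearMap.proj j : (Fin n → ℂ) →L[ℂ] ℂ) := by
      funext a
      ext1 v
      conv_lhs => rw [← Finset.univ_sum_single v, map_sum]
      rw [sum_apply]
      refine Finset.sum_congr rfl fun j _ => ?_
      have : (Pi.single j (v j) : Fin n → ℂ) = v j • (Pi.single j 1 : Fin n → ℂ) := by
        rw [← Pi.single_smul']; simp
      rw [this, map_smul]
      simp [mul_comm]
    rw [this]
    exact Finset.aestronglyMeasurable_fun_sum _ fun j _ => (hj j).smul_const _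
  have hlip : ∀ᵐ a ∂μ, ∀ x ∈ ball x₀ r, ‖k x a - k x₀ a‖ ≤ (2 * M / r) * ‖x - x₀‖ := by
    refine hk.mono fun a ha x hx => ?_
    have := Complex.dist_le_div_mul_dist_of_mapsTo_ball (f := fun z => k z a) (R₂ := 2 * M)
      (ha.1.mono hrU) (fun y hy => by
        rw [mem_closedBall, dist_eq_norm]
        have h1 := ha.2 y (hrU hy)
        have h2 := ha.2 x₀ hx₀
        linarith [norm_sub_le (k y a) (k x₀ a)]) hx
    rwa [dist_eq_norm, dist_eq_norm] at this
  exact (hasFDerivAt_integral_of_dominated_loc_of_lip' (ball_mem_nhds x₀ hr)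
    (fun x hx => hmeas x (hrU hx)) hint hF'meas hlip (integrable_const _)
    hdiff).2.differentiableAt.differentiableWithinAt

end Pool.Agent.H321Z.NU
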